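import Pool.Agent.Work.MP_14d743_an.ClaimW

open Filter Topology ComplexConjugate TopologicalSpace

namespace WNH

noncomputable section

variable {X : Type*} [NormedAddCommGroup X] [NormedSpace ℂ X]

/-- no dense numerical orbits -/
def NoDense (T : X →L[ℂ] X) : Prop :=
  ∀ (x : X) (f : StrongDual ℂ X), ¬ Dense (Set.range fun n : ℕ => f ((T ^ n) x))

/-- elementary fact -/
lemma norm_le_of_ne {a b : ℂ} (h : ∀ s : ℂ, ‖s‖ ≤ 1 → a + s * b ≠ 0) : ‖b‖ ≤ ‖a‖ := by
  by_contra hcon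
  push Not at hcon
  have hb : b ≠ 0 := by
    rintro rfl
    simp at hcon
    exact absurd hcon (not_lt.mpr (norm_nonneg a))
  apply h (-a / b)
  · rw [norm_div, norm_neg, div_le_one (norm_pos_iff.mpr hb)]
    exact hcon.le
  · field_simp
    ring

lemma bilin_bound {A B C D : ℂ}
    (h : ∀ s t : ℂ, ‖s‖ ≤ 1 → ‖t‖ ≤ 1 → A + s * B + t * C + s * t * D ≠ 0) :
    ‖D‖ ≤ 2 * ‖A‖ := by
  have h1 : ‖B‖ ≤ ‖A‖ := by
    apply norm_le_of_ne
    intro s hs
    have := h s 0 hs (by simp)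
    simpa using this
  have h2 : ∀ s : ℂ, ‖s‖ ≤ 1 → ‖C + s * D‖ ≤ 2 * ‖A‖ := by
    intro s hs
    have h3 : ‖C + s * D‖ ≤ ‖A + s * B‖ := by
      apply norm_le_of_ne
      intro t ht
      have := h s t hs ht
      intro h4
      apply this
      rw [← h4]
      ring
    calc ‖C + s * D‖ ≤ ‖A + s * B‖ := h3
      _ ≤ ‖A‖ + ‖s * B‖ := norm_add_le _ _
      _ ≤ ‖A‖ + 1 * ‖A‖ := by rw [norm_mul]; gcongr
      _ = 2 * ‖A‖ := by ring
  have h5 := h2 1 (by simp)
  have h6 := h2 (-1) (by simp)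
  have h7 : ‖(2 : ℂ) * D‖ ≤ 2 * ‖A‖ + 2 * ‖A‖ := by
    calc ‖(2 : ℂ) * D‖ = ‖(C + 1 * D) - (C + (-1) * D)‖ := by congr 1; ring
      _ ≤ ‖C + 1 * D‖ + ‖C + (-1) * D‖ := norm_sub_le _ _
      _ ≤ _ := add_le_add h5 h6
  rw [norm_mul, Complex.norm_ofNat] at h7
  linarith

/-- the Baire category lemma -/
theorem baire_lemma [CompleteSpace X] (T : X →L[ℂ] X) (hH : NoDense T) (B : Submodule ℂ X) :
    ∃ (w : ℂ) (c : ℝ) (x0 : X) (f0 : StrongDual ℂ X), x0 ∈ B ∧ 0 < c ∧
      ∀ (n : ℕ), ∀ y ∈ B, c * ‖(T ^ n) y‖ ≤ ‖f0 ((T ^ n) x0) - w‖ * ‖y‖ := by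
  let Z := B.topologicalClosure
  have : CompleteSpace Z := (Submodule.isClosed_topologicalClosure B).completeSpace_coe
  let P := Z × StrongDual ℂ X
  let Uset : countableBasis ℂ → Set P := fun b => {p | ∃ n : ℕ, p.2 ((T ^ n) (p.1 : X)) ∈ (b : Set ℂ)}
  have hcont : ∀ n : ℕ, Continuous (fun p : P => p.2 ((T ^ n) (p.1 : X))) := by
    intro n
    exact Continuous.clm_apply (continuous_snd (X := Z) (Y := StrongDual ℂ X))
      ((T ^ n).continuous.comp (continuous_subtype_val.comp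
        (continuous_fst (X := Z) (Y := StrongDual ℂ X))))
  have hopen : ∀ b, IsOpen (Uset b) := by
    intro b
    have : Uset b = ⋃ n : ℕ, (fun p : P => p.2 ((T ^ n) (p.1 : X))) ⁻¹' (b : Set ℂ) := by
      ext p
      simp [Uset]
    rw [this]
    exact isOpen_iUnion (fun n => (isOpen_of_mem_countableBasis b.2).preimage (hcont n))
  have hnd : ∃ b, ¬ Dense (Uset b) := by
    by_contra hcon
    push Not at hcon
    have : Countable (countableBasis ℂ) := (countable_countableBasis ℂ).to_subtype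
    have hd := dense_iInter_of_isOpen hopen hcon
    obtain ⟨p, hp⟩ := hd.nonempty
    apply hH (p.1 : X) p.2
    rw [(isBasis_countableBasis ℂ).dense_iff]
    intro o ho _
    have h1 := Set.mem_iInter.mp hp ⟨o, ho⟩
    obtain ⟨n, hn⟩ := h1
    exact ⟨_, hn, n, rfl⟩
  obtain ⟨b, hb⟩ := hnd
  obtain ⟨w, hw⟩ := nonempty_of_mem_countableBasis b.2
  rw [Dense] at hb
  push Not at hb
  obtain ⟨p, hp⟩ := hb
  rw [Metric.mem_closure_iff] at hp
  push Not at hp
  obtain ⟨ρ, hρ, hp⟩ := hp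
  have hball : ∀ q : P, dist q p < ρ → ∀ n : ℕ, q.2 ((T ^ n) (q.1 : X)) ≠ w := by
    intro q hq n hqn
    have h1 : q ∈ Uset b := ⟨n, by rw [hqn]; exact hw⟩
    have h2 := hp q h1
    rw [dist_comm] at h2
    linarith
  -- choose x0
  have hp1 : (p.1 : X) ∈ closure (B : Set X) := p.1.2
  rw [Metric.mem_closure_iff] at hp1
  obtain ⟨x0, hx0, hx0d⟩ := hp1 (ρ / 2) (by positivity)
  refine ⟨w, ρ ^ 2 / 16, x0, p.2, hx0, by positivity, ?_⟩
  intro n y hy
  by_cases hy0 : y = 0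
  · subst hy0; simp
  have hny : 0 < ‖y‖ := norm_pos_iff.mpr hy0
  obtain ⟨g, hg1, hg2⟩ := exists_dual_vector'' ℂ ((T ^ n) y)
  set y' : X := ((ρ / 4 / ‖y‖ : ℝ) : ℂ) • y with hy'
  set g' : StrongDual ℂ X := ((ρ / 2 : ℝ) : ℂ) • g with hg'
  have hny' : ‖y'‖ = ρ / 4 := by
    rw [hy', norm_smul, Complex.norm_real, Real.norm_of_nonneg (by positivity)]
    field_simp
  have hng' : ‖g'‖ ≤ ρ / 2 := by
    rw [hg', norm_smul, Complex.norm_real, Real.norm_of_nonneg (by positivity)]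
    calc ρ / 2 * ‖g‖ ≤ ρ / 2 * 1 := by gcongr
      _ = ρ / 2 := by ring
  have key := bilin_bound (A := p.2 ((T ^ n) x0) - w) (B := p.2 ((T ^ n) y'))
    (C := g' ((T ^ n) x0)) (D := g' ((T ^ n) y')) (by
      intro s t hs ht hzero
      have hmem : x0 + s • y' ∈ Z := by
        apply Submodule.le_topologicalClosure
        exact B.add_mem hx0 (B.smul_mem _ (B.smul_mem _ hy))
      let q : P := (⟨x0 + s • y', hmem⟩, p.2 + t • g')
      refine hball q ?_ n ?_
      · rw [Prod.dist_eq, max_lt_iff]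
        constructor
        · change dist (x0 + s • y') (p.1 : X) < ρ
          calc dist (x0 + s • y') (p.1 : X) ≤ dist (x0 + s • y') x0 + dist x0 (p.1 : X) :=
                dist_triangle _ _ _
            _ < ρ / 2 + ρ / 2 := by
                apply add_lt_add
                · rw [dist_eq_norm, add_sub_cancel_left, norm_smul, hny']
                  calc ‖s‖ * (ρ / 4) ≤ 1 * (ρ / 4) := by gcongr
                    _ < ρ / 2 := by linarith
                · rw [dist_comm]; exact hx0d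
            _ = ρ := by ring
        · change dist (p.2 + t • g') p.2 < ρ
          rw [dist_eq_norm, add_sub_cancel_left, norm_smul]
          calc ‖t‖ * ‖g'‖ ≤ 1 * (ρ / 2) := by gcongr
            _ < ρ := by linarith
      · change (p.2 + t • g') ((T ^ n) (x0 + s • y')) = w
        have : (p.2 + t • g') ((T ^ n) (x0 + s • y')) = w + (p.2 ((T ^ n) x0) - w +
            s * p.2 ((T ^ n) y') + t * g' ((T ^ n) x0) + s * t * g' ((T ^ n) y')) := by
          simp only [map_add, map_smul, FunLike.coe_add, FunLike.coe_smul,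
            Pi.add_apply, Pi.smul_apply, smul_eq_mul]
          ring
        rw [this, hzero, add_zero])
  have h3 : g' ((T ^ n) y') = ((ρ / 2 * (ρ / 4 / ‖y‖) * ‖(T ^ n) y‖ : ℝ) : ℂ) := by
    rw [hg', hy', map_smul, map_smul]
    change (((ρ / 4 / ‖y‖ : ℝ) : ℂ)) * ((((ρ / 2 : ℝ) : ℂ)) * g ((T ^ n) y)) = _
    have hg2' : g ((T ^ n) y) = Complex.ofReal ‖(T ^ n) y‖ := hg2
    rw [hg2']
    rw [← Complex.ofReal_mul, ← Complex.ofReal_mul]
    congr 1
    ring
  rw [h3, Complex.norm_real, Real.norm_of_nonneg (by positivity)] at key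
  have h4 : ρ / 2 * (ρ / 4 / ‖y‖) * ‖(T ^ n) y‖ * ‖y‖ = ρ ^ 2 / 8 * ‖(T ^ n) y‖ := by
    field_simp
    ring
  have h5 := mul_le_mul_of_nonneg_right key hny.le
  rw [h4] at h5
  nlinarith [h5]

end

end WNH
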