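import Pool.Agent.Work.MP_14d743_an.Hilb

open Filter Topology ComplexConjugate

namespace WNH

noncomputable section

/-- Banach–Alaoglu along an ultrafilter. -/
lemma exists_ulim_dual {Z : Type*} [NormedAddCommGroup Z] [NormedSpace ℂ Z] {ι : Type*}
    (W : Ultrafilter ι) (φ : ι → StrongDual ℂ Z) (C : ℝ)
    (h : ∀ᶠ i in (W : Filter ι), ‖φ i‖ ≤ C) :
    ∃ g : StrongDual ℂ Z, ‖g‖ ≤ C ∧ ∀ y, Tendsto (fun i => φ i y) W (𝓝 (g y)) := by
  have hC : 0 ≤ C := by
    obtain ⟨i, hi⟩ := h.exists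
    exact (norm_nonneg _).trans hi
  have h1 : ∀ y : Z, ∃ x : ℂ, ‖x‖ ≤ C * ‖y‖ ∧ Tendsto (fun i => φ i y) W (𝓝 x) := by
    intro y
    apply exists_tendsto_of_bdd
    filter_upwards [h] with i hi
    exact ((φ i).le_opNorm y).trans (by gcongr)
  choose g hg1 hg2 using h1
  let G : Z →ₗ[ℂ] ℂ :=
    { toFun := g
      map_add' := fun a b => by
        refine tendsto_nhds_unique (hg2 (a + b)) ?_
        simpa using (hg2 a).add (hg2 b)
      map_smul' := fun c a => by
        refine tendsto_nhds_unique (hg2 (c • a)) ?_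
        simpa using (hg2 a).const_mul c }
  refine ⟨G.mkContinuous C hg1, LinearMap.mkContinuous_norm_le _ hC _, hg2⟩

/-- reflexivity, as surjectivity of the canonical map to the bidual -/
def IsRefl (Z : Type*) [NormedAddCommGroup Z] [NormedSpace ℂ Z] : Prop :=
  Function.Surjective (NormedSpace.inclusionInDoubleDual ℂ Z)

lemma norm_inclusion {Z : Type*} [NormedAddCommGroup Z] [NormedSpace ℂ Z] (z : Z) :
    ‖NormedSpace.inclusionInDoubleDual ℂ Z z‖ = ‖z‖ :=
  (NormedSpace.inclusionInDoubleDualLi (E := Z) ℂ).norm_map z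

/-- weak sequential-type compactness of bounded families in reflexive spaces -/
lemma exists_ulim_weak {Z : Type*} [NormedAddCommGroup Z] [NormedSpace ℂ Z] (hZ : IsRefl Z)
    {ι : Type*} (W : Ultrafilter ι) (x : ι → Z) (C : ℝ)
    (h : ∀ᶠ i in (W : Filter ι), ‖x i‖ ≤ C) :
    ∃ z : Z, ‖z‖ ≤ C ∧ ∀ g : StrongDual ℂ Z, Tendsto (fun i => g (x i)) W (𝓝 (g z)) := by
  obtain ⟨Φ, hΦ1, hΦ2⟩ := exists_ulim_dual W
    (fun i => NormedSpace.inclusionInDoubleDual ℂ Z (x i)) C (by
      filter_upwards [h] with i hi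
      rwa [norm_inclusion])
  obtain ⟨z, rfl⟩ := hZ Φ
  rw [norm_inclusion] at hΦ1
  exact ⟨z, hΦ1, fun g => hΦ2 g⟩

/-! density filter -/

/-- indicator -/
def ind (s : Set ℕ) : ℕ → ℂ := by
  classical
  exact fun n => if n ∈ s then 1 else 0

lemma ind_bdd (s : Set ℕ) : Bdd (ind s) := by
  classical
  refine ⟨1, fun n => ?_⟩
  unfold ind
  split_ifs <;> simp

lemma mean_re_mono {a b : ℕ → ℂ} (ha : Bdd a) (hb : Bdd b) (h : ∀ n, (a n).re ≤ (b n).re) :
    (mean a).re ≤ (mean b).re := by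
  have h1 : Bdd (fun n => (-1 : ℂ) * a n) := ha.smul (-1)
  have h2 := mean_re_nonneg (hb.add h1) (fun n => by simp; linarith [h n])
  rw [mean_add hb h1, mean_smul _ ha] at h2
  simp at h2
  linarith

/-- mean density -/
def dens (s : Set ℕ) : ℝ := (mean (ind s)).re

lemma ind_re_nonneg (s : Set ℕ) (n : ℕ) : 0 ≤ (ind s n).re := by
  classical
  unfold ind
  split_ifs <;> simp

lemma dens_nonneg (s : Set ℕ) : 0 ≤ dens s := mean_re_nonneg (ind_bdd s) (ind_re_nonneg s)

lemma dens_mono {s t : Set ℕ} (h : s ⊆ t) : dens s ≤ dens t := by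
  classical
  apply mean_re_mono (ind_bdd s) (ind_bdd t)
  intro n
  unfold ind
  by_cases h1 : n ∈ s
  · simp [h1, h h1]
  · by_cases h2 : n ∈ t <;> simp [h1, h2]

lemma dens_union (s t : Set ℕ) : dens (s ∪ t) ≤ dens s + dens t := by
  classical
  unfold dens
  rw [← Complex.add_re, ← mean_add (ind_bdd s) (ind_bdd t)]
  apply mean_re_mono (ind_bdd _) ((ind_bdd s).add (ind_bdd t))
  intro n
  unfold ind
  by_cases h1 : n ∈ s <;> by_cases h2 : n ∈ t <;> simp [h1, h2]

lemma dens_univ : dens Set.univ = 1 := by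
  classical
  unfold dens
  have : ind Set.univ = fun _ => (1 : ℂ) := by
    funext n
    simp [ind]
  rw [this, mean_const]
  simp

lemma dens_empty : dens ∅ = 0 := by
  classical
  unfold dens
  have : ind ∅ = fun _ => (0 : ℂ) := by
    funext n
    simp [ind]
  rw [this, mean_const]
  simp

/-- density-one filter -/
def D : Filter ℕ where
  sets := {s | dens sᶜ = 0}
  univ_sets := by simp [dens_empty]
  sets_of_superset := by
    intro s t hs hst
    exact le_antisymm ((dens_mono (Set.compl_subset_compl.mpr hst)).trans (le_of_eq hs))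
      (dens_nonneg _)
  inter_sets := by
    intro s t hs ht
    refine le_antisymm ?_ (dens_nonneg _)
    rw [Set.compl_inter]
    refine (dens_union _ _).trans ?_
    rw [show dens sᶜ = 0 from hs, show dens tᶜ = 0 from ht]
    simp

lemma mem_D {s : Set ℕ} : s ∈ D ↔ dens sᶜ = 0 := Iff.rfl

instance : D.NeBot := by
  refine ⟨fun h => ?_⟩
  have : (∅ : Set ℕ) ∈ D := by rw [h]; trivial
  rw [mem_D, Set.compl_empty, dens_univ] at this
  exact one_ne_zero this

lemma tendsto_D {a : ℕ → ℂ} (ha : Bdd a)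
    (h : mean (fun n => ((‖a n‖ ^ 2 : ℝ) : ℂ)) = 0) : Tendsto a D (𝓝 0) := by
  classical
  have hb : Bdd (fun n => ((‖a n‖ ^ 2 : ℝ) : ℂ)) := by
    obtain ⟨C, hC⟩ := ha
    refine ⟨C ^ 2, fun n => ?_⟩
    rw [Complex.norm_real, norm_pow, norm_norm]
    exact pow_le_pow_left₀ (norm_nonneg _) (hC n) 2
  rw [Metric.tendsto_nhds]
  intro ε hε
  change {n | dist (a n) 0 < ε} ∈ D
  rw [mem_D]
  refine le_antisymm ?_ (dens_nonneg _)
  have h1 : dens {n | dist (a n) 0 < ε}ᶜ ≤
      (mean (fun n => ((1 / ε ^ 2 : ℝ) : ℂ) * ((‖a n‖ ^ 2 : ℝ) : ℂ))).re := by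
    apply mean_re_mono (ind_bdd _) (hb.smul _)
    intro n
    rw [← Complex.ofReal_mul, Complex.ofReal_re]
    unfold ind
    by_cases hn : dist (a n) 0 < ε
    · have hn' : n ∉ {n | dist (a n) 0 < ε}ᶜ := fun h => h hn
      rw [if_neg hn', Complex.zero_re]
      positivity
    · have hn' : n ∈ {n | dist (a n) 0 < ε}ᶜ := hn
      rw [if_pos hn', Complex.one_re]
      rw [dist_zero_right] at hn
      push Not at hn
      rw [one_div, ← div_eq_inv_mul, le_div_iff₀ (by positivity), one_mul]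
      exact pow_le_pow_left₀ hε.le hn 2
  rw [mean_smul _ hb, h] at h1
  simpa using h1

variable {Z : Type*} [NormedAddCommGroup Z] [NormedSpace ℂ Z]

lemma pow_succ_apply (A : Z →L[ℂ] Z) (n : ℕ) (z : Z) : (A ^ (n + 1)) z = A ((A ^ n) z) := by
  rw [pow_succ', mul_apply_eq_comp]

lemma pow_succ_apply' (A : Z →L[ℂ] Z) (n : ℕ) (z : Z) : (A ^ (n + 1)) z = (A ^ n) (A z) := by
  rw [pow_succ, mul_apply_eq_comp]

/-- Claim W: a power bounded operator on a reflexive space, with an orbit coefficient bounded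
away from zero, has a unimodular eigenvalue. -/
theorem claimW (hZ : IsRefl Z) (A : Z →L[ℂ] Z) (C : ℝ) (hA : ∀ n : ℕ, ‖A ^ n‖ ≤ C)
    (z : Z) (f : StrongDual ℂ Z) (δ : ℝ) (hδ : 0 < δ) (hf : ∀ m : ℕ, δ ≤ ‖f ((A ^ m) z)‖) :
    ∃ (ν : ℂ) (w : Z), ‖ν‖ = 1 ∧ w ≠ 0 ∧ A w = ν • w := by
  have hC0 : 0 ≤ C := (norm_nonneg _).trans (hA 0)
  have hbdd : ∀ g : StrongDual ℂ Z, ∀ n, ‖g ((A ^ n) z)‖ ≤ (C * ‖z‖) * ‖g‖ := by
    intro g n
    calc ‖g ((A ^ n) z)‖ ≤ ‖g‖ * ‖(A ^ n) z‖ := g.le_opNorm _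
      _ ≤ ‖g‖ * (‖A ^ n‖ * ‖z‖) := by gcongr; exact (A ^ n).le_opNorm _
      _ ≤ ‖g‖ * (C * ‖z‖) := by gcongr; exact hA n
      _ = (C * ‖z‖) * ‖g‖ := by ring
  let V0 : StrongDual ℂ Z →ₗ[ℂ] Seq :=
    { toFun := fun g => Seq.mk (fun n => g ((A ^ n) z)) ⟨_, hbdd g⟩
      map_add' := fun a b => by ext n; simp
      map_smul' := fun c a => by ext n; simp }
  let V : StrongDual ℂ Z →L[ℂ] H :=
    (UniformSpace.Completion.toComplL (𝕜 := ℂ) (E := Seq)) ∘L
    (V0.mkContinuous (C * ‖z‖) (fun g => norm_seq_le (by positivity) (hbdd g)))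
  have hV : ∀ g, V g = ((Seq.mk (fun n => g ((A ^ n) z)) ⟨_, hbdd g⟩ : Seq) : H) := fun g => rfl
  have hSV : ∀ g : StrongDual ℂ Z, S (V g) = V (g ∘L A) := by
    intro g
    rw [hV, hV, S_coe]
    congr 1
    ext n
    simp only [shiftL_fn, Seq.fn_mk]
    rw [pow_succ_apply]
    rfl
  have hSVn : ∀ n : ℕ, (S ^ n) (V f) = V (f ∘L (A ^ n)) := by
    intro n
    induction n with
    | zero => simp; rfl
    | succ n ih =>
      rw [S_pow_succ, ih, hSV]
      congr 1
  by_cases hT : T (V f) = 0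
  · exfalso
    let W : Ultrafilter ℕ := Ultrafilter.of D
    have hW : (W : Filter ℕ) ≤ D := Ultrafilter.of_le D
    have hlim : ∀ h : H, Tendsto (fun n => inner ℂ ((S ^ n) (V f)) h) W (𝓝 0) := by
      intro h
      refine Tendsto.mono_left ?_ hW
      apply tendsto_D (orbit_bdd (V f) h)
      rw [← norm_sq_T, hT]
      simp
    obtain ⟨g, -, hg⟩ := exists_ulim_dual W (fun n => f ∘L (A ^ n)) (‖f‖ * C)
      (Eventually.of_forall (fun n => by
        refine (ContinuousLinearMap.opNorm_comp_le _ _).trans ?_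
        gcongr
        exact hA n))
    have hg' : ∀ m : ℕ, δ ≤ ‖g ((A ^ m) z)‖ := by
      intro m
      refine ge_of_tendsto (hg ((A ^ m) z)).norm (Eventually.of_forall (fun n => ?_))
      have : (f ∘L (A ^ n)) ((A ^ m) z) = f ((A ^ (n + m)) z) := by
        rw [pow_add]; rfl
      rw [this]
      exact hf _
    obtain ⟨w, hw⟩ := hZ ((innerSL ℂ (V g)) ∘L V)
    have hw' : ∀ g' : StrongDual ℂ Z, g' w = inner ℂ (V g) (V g') := by
      intro g'
      have := congrArg (fun Φ : StrongDual ℂ (StrongDual ℂ Z) => Φ g') hw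
      exact this
    have h1 : Tendsto (fun n : ℕ => (f ∘L (A ^ n)) w) W (𝓝 0) := by
      have h2 := (Complex.continuous_conj.tendsto 0).comp (hlim (V g))
      rw [map_zero] at h2
      refine h2.congr (fun n => ?_)
      simp only [Function.comp]
      rw [inner_conj_symm, hSVn, hw']
    have h3 := tendsto_nhds_unique h1 (hg w)
    rw [hw'] at h3
    have h4 := inner_self_eq_norm_sq_to_K (𝕜 := ℂ) (V g)
    rw [← h3] at h4
    have h5 : (mean (fun n => ((‖g ((A ^ n) z)‖ ^ 2 : ℝ) : ℂ))) = 0 := by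
      have h6 := norm_sq_seq (Seq.mk (fun n => g ((A ^ n) z)) ⟨_, hbdd g⟩)
      simp only [Seq.fn_mk] at h6
      rw [← h6, ← UniformSpace.Completion.norm_coe, ← hV]
      have h7 : ‖V g‖ = 0 := by
        have h8 : ((‖V g‖ : ℂ)) ^ 2 = 0 := by
          simpa using h4.symm
        exact_mod_cast pow_eq_zero_iff (two_ne_zero) |>.mp h8
      rw [h7]
      simp
    have h9 : (mean (fun _ => ((δ ^ 2 : ℝ) : ℂ))).re ≤
        (mean (fun n => ((‖g ((A ^ n) z)‖ ^ 2 : ℝ) : ℂ))).re := by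
      apply mean_re_mono
      · exact ⟨‖((δ ^ 2 : ℝ) : ℂ)‖, fun n => le_rfl⟩
      · refine ⟨((C * ‖z‖) * ‖g‖) ^ 2, fun n => ?_⟩
        rw [Complex.norm_real, norm_pow, norm_norm]
        exact pow_le_pow_left₀ (norm_nonneg _) (hbdd g n) 2
      · intro n
        rw [Complex.ofReal_re, Complex.ofReal_re]
        exact pow_le_pow_left₀ hδ.le (hg' n) 2
    rw [h5, mean_const, Complex.ofReal_re] at h9
    simp at h9
    have : 0 < δ ^ 2 := by positivity
    linarith
  · obtain ⟨e, ν, hν, he, n, hn⟩ := exists_eigen (V f) hT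
    obtain ⟨w, hw⟩ := hZ ((innerSL ℂ e) ∘L V)
    have hw' : ∀ g' : StrongDual ℂ Z, g' w = inner ℂ e (V g') := by
      intro g'
      have := congrArg (fun Φ : StrongDual ℂ (StrongDual ℂ Z) => Φ g') hw
      exact this
    refine ⟨ν, w, hν, ?_, ?_⟩
    · rintro rfl
      apply hn
      rw [hSVn, ← inner_conj_symm, ← hw']
      simp
    · rw [SeparatingDual.eq_iff_forall_dual_eq (R := ℂ)]
      intro g
      have h1 : g (A w) = inner ℂ e (S (V g)) := by
        rw [hSV, ← hw']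
        rfl
      have h2 : inner ℂ e (S (V g)) = ν * inner ℂ e (V g) := by
        have h3 : inner ℂ (S e) (S (V g)) = conj ν * inner ℂ e (S (V g)) := by
          rw [he, inner_smul_left]
        rw [inner_S] at h3
        rw [h3, ← mul_assoc, Complex.mul_conj, Complex.normSq_eq_norm_sq, hν]
        simp
      rw [h1, h2, ← hw', map_smul, smul_eq_mul]

end

end WNH
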