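import Mathlib

open Filter Topology ComplexConjugate

namespace WNH

noncomputable section

/-- An operator on a Hilbert space with finite Hilbert-Schmidt bound is compact. -/
theorem isCompactOperator_of_trace {E F : Type*} [NormedAddCommGroup E] [InnerProductSpace ℂ E]
    [CompleteSpace E] [NormedAddCommGroup F] [NormedSpace ℂ F] [CompleteSpace F]
    (T : E →L[ℂ] F) (B : ℝ)
    (hB : ∀ (n : ℕ) (e : Fin n → E), Orthonormal ℂ e → ∑ i, ‖T (e i)‖ ^ 2 ≤ B) :
    IsCompactOperator T := by
  have key : ∀ ε : ℝ, 0 < ε → ∃ (V : Submodule ℂ E), FiniteDimensional ℂ V ∧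
      ∀ u ∈ Vᗮ, ‖T u‖ ^ 2 ≤ ε * ‖u‖ ^ 2 := by
    intro ε hε
    by_contra hcon
    push Not at hcon
    have hP : ∀ n : ℕ, ∃ e : Fin n → E, Orthonormal ℂ e ∧ ∀ i, ε < ‖T (e i)‖ ^ 2 := by
      intro n
      induction n with
      | zero => exact ⟨Fin.elim0, Orthonormal.of_isEmpty _, fun i => i.elim0⟩
      | succ n ih =>
        obtain ⟨e, he, hε'⟩ := ih
        obtain ⟨u, hu, hu'⟩ := hcon (Submodule.span ℂ (Set.range e))
          (FiniteDimensional.span_of_finite ℂ (Set.finite_range e))
        have hu0 : u ≠ 0 := by rintro rfl; simp at hu'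
        have hnu : 0 < ‖u‖ := norm_pos_iff.mpr hu0
        refine ⟨Matrix.vecCons (((‖u‖⁻¹ : ℝ) : ℂ) • u) e, ?_, ?_⟩
        · rw [orthonormal_vecCons_iff]
          refine ⟨?_, ?_, he⟩
          · rw [norm_smul, Complex.norm_real, norm_inv, norm_norm, inv_mul_cancel₀ hnu.ne']
          · intro i
            rw [inner_smul_left]
            have : inner ℂ u (e i) = 0 := by
              rw [Submodule.mem_orthogonal'] at hu
              exact hu _ (Submodule.subset_span ⟨i, rfl⟩)
            rw [this, mul_zero]
        · intro i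
          refine Fin.cases ?_ ?_ i
          · simp only [Matrix.cons_val_zero]
            rw [map_smul, norm_smul, Complex.norm_real, norm_inv, norm_norm, mul_pow, inv_pow,
              ← div_eq_inv_mul, lt_div_iff₀ (by positivity)]
            exact hu'
          · exact hε'
    obtain ⟨n, hn⟩ := exists_nat_gt (B / ε)
    obtain ⟨e, he, h⟩ := hP n
    have h1 := hB n e he
    have h2 : (n : ℝ) * ε ≤ ∑ i, ‖T (e i)‖ ^ 2 := by
      calc (n : ℝ) * ε = ∑ i : Fin n, ε := by simp
        _ ≤ _ := Finset.sum_le_sum (fun i _ => (h i).le)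
    rw [div_lt_iff₀ hε] at hn
    linarith
  choose V hV1 hV2 using fun k : ℕ => key ((1 / ((k : ℝ) + 1)) ^ 2) (by positivity)
  refine isCompactOperator_of_tendsto (l := atTop) (F := fun k => T ∘L (V k).starProjection) ?_ ?_
  · rw [tendsto_iff_norm_sub_tendsto_zero]
    refine squeeze_zero (g := fun k : ℕ => 1 / ((k : ℝ) + 1)) (fun k => norm_nonneg _) ?_
      tendsto_one_div_add_atTop_nhds_zero_nat
    intro k
    apply ContinuousLinearMap.opNorm_le_bound _ (by positivity)
    intro x
    have h1 : (T ∘L (V k).starProjection - T) x = - T (x - (V k).starProjection x) := by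
      simp
    rw [h1, norm_neg]
    have h2 := hV2 k _ (Submodule.sub_starProjection_mem_orthogonal (K := V k) x)
    have h3 : ‖x - (V k).starProjection x‖ ≤ ‖x‖ := by
      have h4 := Submodule.starProjection_minimal (U := V k) x
      rw [h4]
      have h5 := ciInf_le (f := fun w : V k => ‖x - w‖)
        ⟨0, by rintro _ ⟨w, rfl⟩; exact norm_nonneg _⟩ (0 : V k)
      simpa using h5
    rw [← mul_pow] at h2
    have h6 := (pow_le_pow_iff_left₀ (norm_nonneg _) (by positivity) two_ne_zero).mp h2
    exact h6.trans (by gcongr)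
  · refine Eventually.of_forall (fun k => ?_)
    have : IsCompactOperator ((V k).starProjection) := by
      have : ProperSpace (V k) := FiniteDimensional.proper ℂ (V k)
      have h1 : IsCompactOperator ((V k).subtypeL) :=
        isCompactOperator_of_locallyCompactSpace_rng _
      exact h1.comp_clm ((V k).orthogonalProjectionOnto)
    exact this.clm_comp T

end

end WNH
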