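import Pool.Agent.Work.MP_14d743_an.Main

open Filter Topology ComplexConjugate TopologicalSpace

namespace WNH

noncomputable section

variable {X : Type*} [NormedAddCommGroup X] [NormedSpace ℂ X]

/-- core of the argument when the normalised operator is not power bounded -/
theorem core [CompleteSpace X] (hX : IsRefl X) (A : X →L[ℂ] X) (M : ℝ) (hM0 : 0 ≤ M)
    (hM : ∀ (n : ℕ), ∀ y ∈ bddOrb A, ‖(A ^ n) y‖ ≤ M * ‖y‖)
    (hb1 : ∀ n : ℕ, 1 ≤ ‖A ^ n‖)
    (hb2 : ∀ ε : ℝ, 0 < ε → Tendsto (fun n : ℕ => ‖A ^ n‖ * Real.exp (-(ε * n))) atTop (𝓝 0))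
    (hub : ¬ ∃ C : ℝ, ∀ n : ℕ, ‖A ^ n‖ ≤ C)
    (c W : ℝ) (hc : 0 < c) (x0 : X) (f0 : StrongDual ℂ X)
    (hf : ∀ (n : ℕ) (y : X), c * ‖(A ^ n) y‖ ≤ (‖f0 ((A ^ n) x0)‖ + W) * ‖y‖) :
    ∃ (ν : ℂ) (w : X), ‖ν‖ = 1 ∧ w ≠ 0 ∧ A w = ν • w := by
  -- selection of times
  have hsel : ∀ j : ℕ, ∃ N : ℕ, ∀ m : ℕ, ‖A ^ m‖ * Real.exp (-((1 / ((j : ℝ) + 1)) * m)) ≤
      ‖A ^ N‖ * Real.exp (-((1 / ((j : ℝ) + 1)) * N)) := by
    intro j
    exact exists_max_time (fun n => ‖A ^ n‖) (by linarith [hb1 0]) _ (hb2 _ (by positivity))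
  choose N hN using hsel
  have hNub : ∀ C : ℝ, ∀ᶠ j : ℕ in atTop, C < ‖A ^ (N j)‖ := by
    intro C
    have h1 : ∃ m : ℕ, |C| * Real.exp 1 < ‖A ^ m‖ := by
      by_contra hcon
      push Not at hcon
      exact hub ⟨_, hcon⟩
    obtain ⟨m, hm⟩ := h1
    filter_upwards [eventually_ge_atTop m] with j hj
    have h2 := hN j m
    have h3 : Real.exp (-((1 / ((j : ℝ) + 1)) * (N j))) ≤ 1 := by
      rw [Real.exp_le_one_iff]
      have : 0 ≤ (1 / ((j : ℝ) + 1)) * (N j) := by positivity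
      linarith
    have h4 : ‖A ^ (N j)‖ * Real.exp (-((1 / ((j : ℝ) + 1)) * (N j))) ≤ ‖A ^ (N j)‖ :=
      mul_le_of_le_one_right (norm_nonneg _) h3
    have h5 : Real.exp (-1) ≤ Real.exp (-((1 / ((j : ℝ) + 1)) * m)) := by
      rw [Real.exp_le_exp]
      have hj' : (m : ℝ) ≤ (j : ℝ) + 1 := by
        have : (m : ℝ) ≤ (j : ℝ) := by exact_mod_cast hj
        linarith
      have : (1 / ((j : ℝ) + 1)) * m ≤ 1 := by
        rw [one_div, ← div_eq_inv_mul, div_le_one (by positivity)]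
        exact hj'
      linarith
    have h6 : |C| < ‖A ^ m‖ * Real.exp (-1) := by
      rw [Real.exp_neg, ← div_eq_mul_inv, lt_div_iff₀ (Real.exp_pos 1)]
      exact hm
    calc C ≤ |C| := le_abs_self C
      _ < ‖A ^ m‖ * Real.exp (-1) := h6
      _ ≤ ‖A ^ m‖ * Real.exp (-((1 / ((j : ℝ) + 1)) * m)) := by gcongr
      _ ≤ _ := h2
      _ ≤ _ := h4
  have hNlim : Tendsto N atTop atTop := by
    rw [tendsto_atTop]
    intro K
    filter_upwards [hNub (∑ n ∈ Finset.range K, ‖A ^ n‖)] with j hj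
    by_contra hcon
    push Not at hcon
    have := Finset.single_le_sum (f := fun n => ‖A ^ n‖) (fun n _ => norm_nonneg (A ^ n))
      (Finset.mem_range.mpr hcon)
    linarith
  have hNU : ∀ k : ℕ, ∀ᶠ j in (U : Filter ℕ), k ≤ N j := fun k =>
    (hNlim.mono_left U_le_atTop).eventually (eventually_ge_atTop k)
  have hjU : ∀ k : ℕ, ∀ᶠ j in (U : Filter ℕ), k ≤ j := fun k =>
    (eventually_ge_atTop k).filter_mono U_le_atTop
  have hbpos : ∀ j, 0 < ‖A ^ (N j)‖ := fun j => by linarith [hb1 (N j)]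
  have hratio : ∀ m k : ℕ, ∀ᶠ j in (U : Filter ℕ),
      ‖A ^ (N j - k + m)‖ ≤ Real.exp 1 * ‖A ^ (N j)‖ := by
    intro m k
    filter_upwards [hNU k, hjU m] with j hj1 hj2
    have h1 := hN j (N j - k + m)
    have h2 : ‖A ^ (N j - k + m)‖ ≤ ‖A ^ (N j)‖ *
        Real.exp ((1 / ((j : ℝ) + 1)) * (((N j - k + m : ℕ) : ℝ) - N j)) := by
      have h3 : Real.exp ((1 / ((j : ℝ) + 1)) * (((N j - k + m : ℕ) : ℝ) - N j)) =
          Real.exp (-((1 / ((j : ℝ) + 1)) * (N j))) *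
            Real.exp ((1 / ((j : ℝ) + 1)) * ((N j - k + m : ℕ) : ℝ)) := by
        rw [← Real.exp_add]
        congr 1
        ring
      rw [h3, ← mul_assoc]
      rw [Real.exp_neg ((1 / ((j : ℝ) + 1)) * ((N j - k + m : ℕ) : ℝ)), ← div_eq_mul_inv,
        div_le_iff₀ (Real.exp_pos _)] at h1
      exact h1
    refine h2.trans ?_
    rw [mul_comm]
    gcongr
    rw [Nat.cast_add, Nat.cast_sub hj1]
    have h4 : (N j : ℝ) - k + m - N j ≤ m := by
      have : (0 : ℝ) ≤ k := by positivity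
      linarith
    calc 1 / ((j : ℝ) + 1) * ((N j : ℝ) - k + m - N j) ≤ 1 / ((j : ℝ) + 1) * m := by gcongr
      _ ≤ 1 := by
        rw [one_div, ← div_eq_inv_mul, div_le_one (by positivity)]
        have : (m : ℝ) ≤ (j : ℝ) := by exact_mod_cast hj2
        linarith
  -- the vectors y_k
  have hy : ∀ k : ℕ, ∃ y : X, ‖y‖ ≤ Real.exp 1 * ‖x0‖ ∧ ∀ g : StrongDual ℂ X,
      Tendsto (fun j => g ((((‖A ^ (N j)‖)⁻¹ : ℝ) : ℂ) • ((A ^ (N j - k)) x0))) U (𝓝 (g y)) := by
    intro k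
    apply exists_ulim_weak hX
    filter_upwards [hratio 0 k] with j hj
    rw [add_zero] at hj
    rw [norm_smul, Complex.norm_real, Real.norm_of_nonneg (by positivity)]
    calc (‖A ^ (N j)‖)⁻¹ * ‖(A ^ (N j - k)) x0‖
        ≤ (‖A ^ (N j)‖)⁻¹ * (‖A ^ (N j - k)‖ * ‖x0‖) := by
          gcongr
          exact (A ^ (N j - k)).le_opNorm _
      _ ≤ (‖A ^ (N j)‖)⁻¹ * ((Real.exp 1 * ‖A ^ (N j)‖) * ‖x0‖) := by gcongr
      _ = Real.exp 1 * ‖x0‖ := by
          have := (hbpos j).ne'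
          field_simp
  choose y hy1 hy2 using hy
  have hy3 : ∀ (k m : ℕ) (g : StrongDual ℂ X),
      Tendsto (fun j => g ((((‖A ^ (N j)‖)⁻¹ : ℝ) : ℂ) • ((A ^ (N j - k + m)) x0))) U
        (𝓝 (g ((A ^ m) (y k)))) := by
    intro k m g
    have h1 := hy2 k (g ∘L (A ^ m))
    refine h1.congr (fun j => ?_)
    rw [add_comm (N j - k) m, pow_add]
    simp
  have hshift : ∀ m k : ℕ, m ≤ k → (A ^ m) (y k) = y (k - m) := by
    intro m k hmk
    rw [SeparatingDual.eq_iff_forall_dual_eq (R := ℂ)]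
    intro g
    refine tendsto_nhds_unique (hy3 k m g) ?_
    refine (hy2 (k - m) g).congr' ?_
    filter_upwards [hNU k] with j hj
    have : N j - (k - m) = N j - k + m := by omega
    rw [this]
  have horb : ∀ m k : ℕ, ‖(A ^ m) (y k)‖ ≤ Real.exp 1 * ‖x0‖ := by
    intro m k
    apply norm_le_of_dual
    intro g hg
    refine le_of_tendsto (hy3 k m g).norm ?_
    filter_upwards [hratio m k] with j hj
    calc ‖g ((((‖A ^ (N j)‖)⁻¹ : ℝ) : ℂ) • ((A ^ (N j - k + m)) x0))‖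
        ≤ ‖g‖ * ‖(((‖A ^ (N j)‖)⁻¹ : ℝ) : ℂ) • ((A ^ (N j - k + m)) x0)‖ := g.le_opNorm _
      _ ≤ 1 * ‖(((‖A ^ (N j)‖)⁻¹ : ℝ) : ℂ) • ((A ^ (N j - k + m)) x0)‖ := by gcongr
      _ = (‖A ^ (N j)‖)⁻¹ * ‖(A ^ (N j - k + m)) x0‖ := by
          rw [one_mul, norm_smul, Complex.norm_real, Real.norm_of_nonneg (by positivity)]
      _ ≤ (‖A ^ (N j)‖)⁻¹ * (‖A ^ (N j - k + m)‖ * ‖x0‖) := by
          gcongr
          exact (A ^ (N j - k + m)).le_opNorm _
      _ ≤ (‖A ^ (N j)‖)⁻¹ * ((Real.exp 1 * ‖A ^ (N j)‖) * ‖x0‖) := by gcongr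
      _ = Real.exp 1 * ‖x0‖ := by
          have := (hbpos j).ne'
          field_simp
  -- W / b → 0
  have hW : Tendsto (fun j => (‖A ^ (N j)‖)⁻¹ * W) U (𝓝 0) := by
    have h1 : Tendsto (fun j => ‖A ^ (N j)‖) atTop atTop := by
      rw [tendsto_atTop]
      intro C
      filter_upwards [hNub C] with j hj
      exact hj.le
    have h2 := (h1.inv_tendsto_atTop.mul_const W).mono_left U_le_atTop
    simpa using h2
  -- key inequality (*)
  have hstar : ∀ k : ℕ, c * ‖y k‖ ≤ ‖f0 (y k)‖ * ‖x0‖ := by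
    intro k
    have h1 : ‖y k‖ ≤ ‖f0 (y k)‖ * ‖x0‖ / c := by
      apply norm_le_of_dual
      intro g hg
      rw [le_div_iff₀ hc]
      have h2 := (hy2 k g).norm.mul_const c
      have h3 := ((hy2 k f0).norm.add hW).mul_const ‖x0‖
      rw [add_zero] at h3
      refine le_of_tendsto_of_tendsto h2 h3 (Eventually.of_forall (fun j => ?_))
      simp only
      rw [map_smul, map_smul, norm_smul, norm_smul, Complex.norm_real,
        Real.norm_of_nonneg (by positivity)]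
      have h4 : ‖g ((A ^ (N j - k)) x0)‖ ≤ ‖(A ^ (N j - k)) x0‖ := by
        calc ‖g ((A ^ (N j - k)) x0)‖ ≤ ‖g‖ * ‖(A ^ (N j - k)) x0‖ := g.le_opNorm _
          _ ≤ 1 * ‖(A ^ (N j - k)) x0‖ := by gcongr
          _ = _ := one_mul _
      calc (‖A ^ (N j)‖)⁻¹ * ‖g ((A ^ (N j - k)) x0)‖ * c
          ≤ (‖A ^ (N j)‖)⁻¹ * ‖(A ^ (N j - k)) x0‖ * c := by gcongr
        _ = (‖A ^ (N j)‖)⁻¹ * (c * ‖(A ^ (N j - k)) x0‖) := by ring
        _ ≤ (‖A ^ (N j)‖)⁻¹ * ((‖f0 ((A ^ (N j - k)) x0)‖ + W) * ‖x0‖) :=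
            mul_le_mul_of_nonneg_left (hf _ _) (by positivity)
        _ = _ := by ring
    rw [le_div_iff₀ hc] at h1
    linarith
  have hzero : c ≤ ‖f0 (y 0)‖ := by
    have h3 := ((hy2 0 f0).norm.add hW)
    rw [add_zero] at h3
    refine ge_of_tendsto h3 (Eventually.of_forall (fun j => ?_))
    simp only [Nat.sub_zero]
    rw [map_smul, norm_smul, Complex.norm_real, Real.norm_of_nonneg (by positivity), ← mul_add,
      ← div_eq_inv_mul, le_div_iff₀ (hbpos j)]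
    have h4 : ‖A ^ (N j)‖ ≤ (‖f0 ((A ^ (N j)) x0)‖ + W) / c := by
      have h6 : 0 ≤ ‖f0 ((A ^ (N j)) x0)‖ + W := by
        by_contra hcon
        push Not at hcon
        have h7 : ∀ v : X, v = 0 := by
          intro v
          by_contra hv
          have h8 := hf (N j) v
          have h9 : (‖f0 ((A ^ (N j)) x0)‖ + W) * ‖v‖ < 0 :=
            mul_neg_of_neg_of_pos hcon (norm_pos_iff.mpr hv)
          have h10 : 0 ≤ c * ‖(A ^ (N j)) v‖ := by positivity
          linarith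
        have h11 : A ^ (N j) = 0 := by
          ext v
          simp [h7]
        have := hbpos j
        rw [h11, norm_zero] at this
        exact lt_irrefl _ this
      apply ContinuousLinearMap.opNorm_le_bound _ (by positivity)
      intro v
      rw [div_mul_eq_mul_div, le_div_iff₀ hc, mul_comm]
      exact hf _ _
    rw [le_div_iff₀ hc] at h4
    linarith
  -- lower bounds
  have hf0 : 0 < ‖f0‖ := by
    rw [norm_pos_iff]
    rintro rfl
    simp at hzero
    linarith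
  have hyB : ∀ k, y k ∈ bddOrb A := fun k => ⟨_, fun m => horb m k⟩
  have hlow : ∀ k, c / ‖f0‖ ≤ M * ‖y k‖ := by
    intro k
    have h1 := hM k (y k) (hyB k)
    rw [hshift k k le_rfl, Nat.sub_self] at h1
    refine le_trans ?_ h1
    rw [div_le_iff₀ hf0, mul_comm]
    exact hzero.trans (f0.le_opNorm _)
  have hMpos : 0 < M := by
    rcases hM0.lt_or_eq with h | h
    · exact h
    · have := hlow 0
      rw [← h, zero_mul] at this
      have h2 : 0 < c / ‖f0‖ := by positivity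
      linarith
  have hx0 : 0 < ‖x0‖ := by
    rw [norm_pos_iff]
    rintro rfl
    have h1 := hy1 0
    rw [norm_zero, mul_zero] at h1
    have h2 : y 0 = 0 := norm_le_zero_iff.mp h1
    rw [h2, map_zero, norm_zero] at hzero
    linarith
  set δ : ℝ := c * (c / ‖f0‖ / M) / ‖x0‖ with hδ
  have hδpos : 0 < δ := by positivity
  have hlow2 : ∀ k, δ ≤ ‖f0 (y k)‖ := by
    intro k
    rw [hδ, div_le_iff₀ hx0]
    refine le_trans ?_ (hstar k)
    gcongr
    rw [div_le_iff₀ hMpos, mul_comm]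
    exact hlow k
  -- the vector z
  obtain ⟨z, -, hz⟩ := exists_ulim_weak hX U y (Real.exp 1 * ‖x0‖) (Eventually.of_forall hy1)
  have hzorb : ∀ m, ‖(A ^ m) z‖ ≤ Real.exp 1 * ‖x0‖ := by
    intro m
    apply norm_le_of_dual
    intro g hg
    refine le_of_tendsto (hz (g ∘L (A ^ m))).norm (Eventually.of_forall (fun k => ?_))
    calc ‖(g ∘L (A ^ m)) (y k)‖ = ‖g ((A ^ m) (y k))‖ := rfl
      _ ≤ ‖g‖ * ‖(A ^ m) (y k)‖ := g.le_opNorm _
      _ ≤ 1 * (Real.exp 1 * ‖x0‖) := by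
          gcongr
          exact horb m k
      _ = _ := one_mul _
  have hzB : z ∈ bddOrb A := ⟨_, hzorb⟩
  have hzlow : ∀ m, δ ≤ ‖f0 ((A ^ m) z)‖ := by
    intro m
    refine ge_of_tendsto (hz (f0 ∘L (A ^ m))).norm ?_
    filter_upwards [hjU m] with k hk
    change δ ≤ ‖f0 ((A ^ m) (y k))‖
    rw [hshift m k hk]
    exact hlow2 _
  -- restrict to bddOrb A
  have hBcl := bddOrb_closed A M hM
  have hBrefl := isRefl_closed hX (bddOrb A) hBcl
  have hinv : ∀ x ∈ bddOrb A, A x ∈ bddOrb A := by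
    rintro x ⟨C, hC⟩
    refine ⟨C, fun n => ?_⟩
    rw [← pow_succ_apply']
    exact hC _
  have hpow : ∀ (n : ℕ) (x : bddOrb A), (((A.restrict hinv) ^ n) x : X) = (A ^ n) (x : X) := by
    intro n
    induction n with
    | zero => intro x; simp
    | succ n ih =>
      intro x
      rw [pow_succ_apply, pow_succ_apply, ContinuousLinearMap.coe_restrict_apply, ih]
  obtain ⟨ν, w, hν, hw, hAw⟩ := claimW hBrefl (A.restrict hinv) M (fun n => by
      apply ContinuousLinearMap.opNorm_le_bound _ hM0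
      intro x
      have := hM n x x.2
      rw [← hpow] at this
      exact this) ⟨z, hzB⟩ (f0 ∘L (bddOrb A).subtypeL) δ hδpos (fun m => by
      have := hzlow m
      change δ ≤ ‖f0 (((A.restrict hinv) ^ m) ⟨z, hzB⟩ : bddOrb A)‖
      rw [hpow]
      exact this)
  refine ⟨ν, w, hν, ?_, ?_⟩
  · intro h
    exact hw (Subtype.ext h)
  · have := congrArg Subtype.val hAw
    simpa using this

/-- Main theorem: a bounded operator on a reflexive complex Banach space which is not power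
bounded and has no dense numerical orbit has an eigenvalue. -/
theorem main [CompleteSpace X] (hX : IsRefl X) (T : X →L[ℂ] X)
    (hnpb : ¬ ∃ C : ℝ, ∀ n : ℕ, ‖T ^ n‖ ≤ C) (hH : NoDense T) :
    ∃ (μ : ℂ) (x : X), x ≠ 0 ∧ T x = μ • x := by
  rcases subsingleton_or_nontrivial X with hsub | hnt
  · exfalso
    apply hnpb
    refine ⟨0, fun n => ?_⟩
    have : T ^ n = 0 := by
      ext x
      exact Subsingleton.elim _ _
    rw [this, norm_zero]
  obtain ⟨L, hL0, hL1, hL2⟩ := growth T hnpb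
  set r : ℝ := Real.exp L with hr
  have hr1 : 1 ≤ r := Real.one_le_exp hL0
  have hr0 : 0 < r := by linarith
  set A : X →L[ℂ] X := ((r⁻¹ : ℝ) : ℂ) • T with hA
  have hAn : ∀ n : ℕ, ‖A ^ n‖ = Real.exp (-(n * L)) * ‖T ^ n‖ := by
    intro n
    rw [hA, smul_pow, norm_smul, norm_pow, Complex.norm_real, Real.norm_of_nonneg (by positivity),
      hr, ← Real.exp_neg, ← Real.exp_nat_mul]
    congr 2
    ring
  have hb1 : ∀ n : ℕ, 1 ≤ ‖A ^ n‖ := by
    intro n
    rw [hAn, Real.exp_neg, ← div_eq_inv_mul, le_div_iff₀ (Real.exp_pos _), one_mul]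
    exact hL1 n
  have hb2 : ∀ ε : ℝ, 0 < ε →
      Tendsto (fun n : ℕ => ‖A ^ n‖ * Real.exp (-(ε * n))) atTop (𝓝 0) := by
    intro ε hε
    have h1 : Tendsto (fun n : ℕ => Real.exp (-(ε / 2 * n))) atTop (𝓝 0) := by
      have h2 : Tendsto (fun n : ℕ => ε / 2 * (n : ℝ)) atTop atTop :=
        tendsto_natCast_atTop_atTop.const_mul_atTop (by positivity)
      exact Real.tendsto_exp_neg_atTop_nhds_zero.comp h2
    refine squeeze_zero' (Eventually.of_forall (fun n => by positivity)) ?_ h1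
    filter_upwards [hL2 (ε / 2) (by positivity)] with n hn
    rw [hAn]
    calc Real.exp (-(n * L)) * ‖T ^ n‖ * Real.exp (-(ε * n))
        ≤ Real.exp (-(n * L)) * Real.exp (n * (L + ε / 2)) * Real.exp (-(ε * n)) := by gcongr
      _ = Real.exp (-(ε / 2 * n)) := by
          rw [← Real.exp_add, ← Real.exp_add]
          congr 1
          ring
  obtain ⟨M, hM0, hM⟩ := bddOrb_bound T hH r hr1
  obtain ⟨w, c, x0, f0, -, hc, hbs⟩ := baire_scaled T hH r hr1 ⊤
  have key : ∃ (ν : ℂ) (w : X), ‖ν‖ = 1 ∧ w ≠ 0 ∧ A w = ν • w := by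
    by_cases hub : ∃ C : ℝ, ∀ n : ℕ, ‖A ^ n‖ ≤ C
    · obtain ⟨C, hC⟩ := hub
      have hLpos : 0 < L := by
        rcases hL0.lt_or_eq with h | h
        · exact h
        · exfalso
          apply hnpb
          refine ⟨C, fun n => ?_⟩
          have := hC n
          rw [hAn, ← h] at this
          simpa using this
      have hr1' : 1 < r := Real.one_lt_exp_iff.mpr hLpos
      have hlim : Tendsto (fun n : ℕ => ‖w‖ * (r⁻¹) ^ n) atTop (𝓝 0) := by
        have := (tendsto_pow_atTop_nhds_zero_of_lt_one (r := r⁻¹) (by positivity)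
          (inv_lt_one_of_one_lt₀ hr1')).const_mul ‖w‖
        simpa using this
      have h1 := hlim.eventually (gt_mem_nhds (show (0 : ℝ) < c / 2 by positivity))
      obtain ⟨n0, hn0⟩ := eventually_atTop.mp h1
      refine claimW hX A C hC ((A ^ n0) x0) f0 (c / 2) (by positivity) (fun m => ?_)
      have h2 : (A ^ m) ((A ^ n0) x0) = (A ^ (m + n0)) x0 := by
        rw [pow_add, mul_apply_eq_comp]
      rw [h2]
      have h3 : ‖A ^ (m + n0)‖ ≤ (‖f0 ((A ^ (m + n0)) x0)‖ + ‖w‖ * (r⁻¹) ^ (m + n0)) / c := by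
        apply ContinuousLinearMap.opNorm_le_bound _ (by positivity)
        intro v
        rw [div_mul_eq_mul_div, le_div_iff₀ hc, mul_comm]
        exact hbs _ v trivial
      have h4 := hb1 (m + n0)
      have h5 := h4.trans h3
      rw [le_div_iff₀ hc] at h5
      have h6 := hn0 (m + n0) (by omega)
      linarith
    · refine core hX A M hM0 hM hb1 hb2 hub c ‖w‖ hc x0 f0 (fun n y => ?_)
      refine (hbs n y trivial).trans ?_
      have : (r⁻¹) ^ n ≤ 1 := pow_le_one₀ (by positivity) (inv_le_one_of_one_le₀ hr1)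
      have h2 : ‖w‖ * (r⁻¹) ^ n ≤ ‖w‖ := mul_le_of_le_one_right (norm_nonneg _) this
      gcongr
  obtain ⟨ν, v, hν, hv, hAv⟩ := key
  refine ⟨(r : ℂ) * ν, v, hv, ?_⟩
  have h1 : T v = (r : ℂ) • A v := by
    rw [hA]
    change T v = (r : ℂ) • (((r⁻¹ : ℝ) : ℂ) • T v)
    rw [smul_smul, ← Complex.ofReal_mul, mul_inv_cancel₀ hr0.ne']
    simp
  rw [h1, hAv, smul_smul]

end

end WNH
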