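import Pool.Agent.Work.MP_14d743_an.Mean
import Pool.Agent.Work.MP_14d743_an.Compact

open Filter Topology ComplexConjugate

namespace WNH

noncomputable section

lemma norm_S_pow (n : ℕ) (x : H) : ‖(S ^ n) x‖ = ‖x‖ := by
  induction n with
  | zero => simp
  | succ n ih => rw [pow_succ', mul_apply_eq_comp, norm_S, ih]

lemma S_pow_succ (n : ℕ) (x : H) : (S ^ (n + 1)) x = S ((S ^ n) x) := by
  rw [pow_succ', mul_apply_eq_comp]

lemma inner_S (x y : H) : inner ℂ (S x) (S y) = inner ℂ x y := by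
  have h := (ContinuousLinearMap.inner_map_map_iff_adjoint_comp_self S).mpr
  exact LinearIsometry.inner_map_map ⟨(S : H →ₗ[ℂ] H), norm_S⟩ x y

lemma orbit_bdd (η h : H) : Bdd (fun n => inner ℂ ((S ^ n) η) h) :=
  ⟨‖η‖ * ‖h‖, fun n => (norm_inner_le_norm _ _).trans (by rw [norm_S_pow])⟩

/-- the coefficient sequence -/
def cseq (η h : H) : Seq := Seq.mk (fun n => inner ℂ ((S ^ n) η) h) (orbit_bdd η h)

@[simp] lemma cseq_fn (η h : H) (n : ℕ) : (cseq η h).fn n = inner ℂ ((S ^ n) η) h := rfl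

/-- linear version -/
def cseqL (η : H) : H →ₗ[ℂ] Seq where
  toFun h := cseq η h
  map_add' a b := by ext n; simp [inner_add_right]
  map_smul' c a := by ext n; simp [inner_smul_right]

/-- coefficient operator -/
def T (η : H) : H →L[ℂ] H :=
  (UniformSpace.Completion.toComplL (𝕜 := ℂ) (E := Seq)) ∘L
    ((cseqL η).mkContinuous ‖η‖ (fun h => by
      apply norm_seq_le (by positivity)
      intro n
      refine (norm_inner_le_norm _ _).trans (by rw [norm_S_pow])))

lemma T_apply (η h : H) : T η h = ((cseq η h : Seq) : H) := rfl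

lemma inner_T (η h h' : H) : inner ℂ (T η h) (T η h') =
    mean (fun n => conj (inner ℂ ((S ^ n) η) h) * inner ℂ ((S ^ n) η) h') := by
  rw [T_apply, T_apply, UniformSpace.Completion.inner_coe, seq_inner_def]
  rfl

lemma norm_sq_T (η h : H) : ((‖T η h‖ ^ 2 : ℝ) : ℂ) =
    mean (fun n => ((‖inner ℂ ((S ^ n) η) h‖ ^ 2 : ℝ) : ℂ)) := by
  rw [T_apply, UniformSpace.Completion.norm_coe, norm_sq_seq]
  rfl

open ContinuousLinearMap in
lemma T_adjS (η h : H) : T η (adjoint S h) = S (T η h) := by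
  rw [T_apply, T_apply, S_coe]
  congr 1
  ext n
  simp only [cseq_fn, shiftL_fn]
  rw [adjoint_inner_right, S_pow_succ]

open ContinuousLinearMap in
lemma adjS_S (h : H) : adjoint S (S h) = h := by
  apply ext_inner_left ℂ
  intro v
  rw [adjoint_inner_right, inner_S]

open ContinuousLinearMap in
/-- the positive operator -/
def K (η : H) : H →L[ℂ] H := (adjoint (T η)) ∘L (T η)

open ContinuousLinearMap in
lemma inner_K (η h h' : H) : inner ℂ h (K η h') = inner ℂ (T η h) (T η h') := by
  unfold K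
  rw [comp_apply, adjoint_inner_right]

open ContinuousLinearMap in
lemma SKS (η h : H) : S (K η (adjoint S h)) = K η h := by
  apply ext_inner_left ℂ
  intro v
  rw [← adjoint_inner_left, inner_K, T_adjS, T_adjS, inner_S, inner_K]

open ContinuousLinearMap in
lemma K_comm (η h : H) : S (K η h) = K η (S h) := by
  have := SKS η (S h)
  rw [adjS_S] at this
  exact this

lemma T_trace (η : H) (n : ℕ) (e : Fin n → H) (he : Orthonormal ℂ e) :
    ∑ i, ‖T η (e i)‖ ^ 2 ≤ ‖η‖ ^ 2 := by
  have hb : ∀ i : Fin n, Bdd (fun n => ((‖inner ℂ ((S ^ n) η) (e i)‖ ^ 2 : ℝ) : ℂ)) := by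
    intro i
    refine ⟨(‖η‖ * ‖e i‖) ^ 2, fun n => ?_⟩
    rw [Complex.norm_real, norm_pow, norm_norm]
    refine pow_le_pow_left₀ (norm_nonneg _) ?_ 2
    exact (norm_inner_le_norm _ _).trans (by rw [norm_S_pow])
  have h1 : ∀ s : Finset (Fin n), ((∑ i ∈ s, ‖T η (e i)‖ ^ 2 : ℝ) : ℂ) =
      mean (fun n => ((∑ i ∈ s, ‖inner ℂ ((S ^ n) η) (e i)‖ ^ 2 : ℝ) : ℂ)) ∧
      Bdd (fun n => ((∑ i ∈ s, ‖inner ℂ ((S ^ n) η) (e i)‖ ^ 2 : ℝ) : ℂ)) := by
    intro s
    induction s using Finset.induction_on with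
    | empty =>
      simp only [Finset.sum_empty, Complex.ofReal_zero]
      exact ⟨(mean_const 0).symm, 0, fun n => by simp⟩
    | insert a s ha ih =>
      obtain ⟨ih1, ih2⟩ := ih
      have e1 : (fun n => ((∑ i ∈ insert a s, ‖inner ℂ ((S ^ n) η) (e i)‖ ^ 2 : ℝ) : ℂ)) =
          fun n => ((‖inner ℂ ((S ^ n) η) (e a)‖ ^ 2 : ℝ) : ℂ) +
            ((∑ i ∈ s, ‖inner ℂ ((S ^ n) η) (e i)‖ ^ 2 : ℝ) : ℂ) := by
        funext n
        rw [Finset.sum_insert ha, Complex.ofReal_add]
      constructor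
      · rw [e1, mean_add (hb a) ih2, ← ih1, ← norm_sq_T, Finset.sum_insert ha, Complex.ofReal_add]
      · rw [e1]
        exact (hb a).add ih2
  have h2 := (h1 Finset.univ).1
  have h3 : ‖mean (fun n => ((∑ i, ‖inner ℂ ((S ^ n) η) (e i)‖ ^ 2 : ℝ) : ℂ))‖ ≤ ‖η‖ ^ 2 := by
    apply norm_mean_le
    intro n
    rw [Complex.norm_real, Real.norm_of_nonneg (Finset.sum_nonneg (fun i _ => by positivity))]
    have h4 := he.sum_inner_products_le ((S ^ n) η) (s := Finset.univ)
    rw [norm_S_pow] at h4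
    refine le_trans (le_of_eq ?_) h4
    apply Finset.sum_congr rfl
    intro i _
    rw [norm_inner_symm]
  rw [← h2, Complex.norm_real, Real.norm_of_nonneg (Finset.sum_nonneg (fun i _ => by positivity))]
    at h3
  exact h3

lemma T_compact (η : H) : IsCompactOperator (T η) :=
  isCompactOperator_of_trace (T η) (‖η‖ ^ 2) (T_trace η)

open ContinuousLinearMap in
lemma K_compact (η : H) : IsCompactOperator (K η) :=
  (T_compact η).clm_comp (adjoint (T η))

lemma K_symm (η : H) : (K η).IsSymmetric := by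
  intro x y
  change inner ℂ (K η x) y = inner ℂ x (K η y)
  rw [inner_K, ← inner_conj_symm, inner_K, inner_conj_symm]

/-- The main Hilbert space lemma: if the coefficient operator is nonzero, the shift has a
unimodular eigenvector that is not orthogonal to the orbit of `η`. -/
theorem exists_eigen (η : H) (hT : T η ≠ 0) :
    ∃ (e : H) (ν : ℂ), ‖ν‖ = 1 ∧ S e = ν • e ∧ ∃ n : ℕ, inner ℂ ((S ^ n) η) e ≠ 0 := by
  have hK : K η ≠ 0 := by
    intro h
    apply hT
    unfold K at h
    rwa [ContinuousLinearMap.adjoint_comp_self_eq_zero_iff] at h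
  have h1 := (ContinuousLinearMap.eq_zero_of_forall_hasEigenvalue_eq_zero
    (K_compact η) (K_symm η)).not.mpr hK
  push Not at h1
  obtain ⟨μ, hμ, hμ0⟩ := h1
  have hfin : FiniteDimensional ℂ (Module.End.eigenspace (K η).toLinearMap μ) :=
    ContinuousLinearMap.finite_dimensional_eigenspace (K_compact η) μ hμ0
  have hinv : ∀ x ∈ Module.End.eigenspace (K η).toLinearMap μ,
      (S : H →ₗ[ℂ] H) x ∈ Module.End.eigenspace (K η).toLinearMap μ := by
    intro x hx
    rw [Module.End.mem_eigenspace_iff] at hx ⊢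
    change K η (S x) = μ • S x
    change K η x = μ • x at hx
    rw [← K_comm, hx, map_smul]
  have hnt : Nontrivial (Module.End.eigenspace (K η).toLinearMap μ) := by
    rw [Submodule.nontrivial_iff_ne_bot]
    exact hμ
  obtain ⟨ν, hν⟩ := Module.End.exists_eigenvalue ((S : H →ₗ[ℂ] H).restrict hinv)
  obtain ⟨e, he1, he2⟩ := hν.exists_hasEigenvector
  rw [Module.End.mem_eigenspace_iff] at he1
  have he3 : S (e : H) = ν • (e : H) := by
    have := congrArg Subtype.val he1
    simpa using this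
  have he0 : (e : H) ≠ 0 := by simpa using he2
  refine ⟨e, ν, ?_, he3, ?_⟩
  · have h2 := norm_S (e : H)
    rw [he3, norm_smul] at h2
    have h3 : ‖(e : H)‖ ≠ 0 := norm_ne_zero_iff.mpr he0
    exact mul_right_cancel₀ h3 (by rw [h2, one_mul])
  · by_contra hcon
    push Not at hcon
    have h4 : T η (e : H) = 0 := by
      rw [T_apply]
      have : cseq η (e : H) = 0 := by
        ext n
        rw [cseq_fn, hcon n]
        rfl
      rw [this]
      exact UniformSpace.Completion.coe_zero
    have h5 : K η (e : H) = 0 := by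
      unfold K
      rw [ContinuousLinearMap.comp_apply, h4, map_zero]
    have h6 : K η (e : H) = μ • (e : H) := by
      have := e.2
      rw [Module.End.mem_eigenspace_iff] at this
      exact this
    rw [h5] at h6
    exact (smul_ne_zero hμ0 he0) h6.symm

end

end WNH
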