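import Pool.Agent.Work.MP_14d743_an.Baire

open Filter Topology ComplexConjugate TopologicalSpace

namespace WNH

noncomputable section

variable {X : Type*} [NormedAddCommGroup X] [NormedSpace ℂ X]

/-- closed subspaces of reflexive spaces are reflexive -/
lemma isRefl_closed (hX : IsRefl X) (B : Submodule ℂ X) (hB : IsClosed (B : Set X)) :
    IsRefl B := by
  intro Φ
  let R : StrongDual ℂ X →L[ℂ] StrongDual ℂ B :=
    (ContinuousLinearMap.compL ℂ B X ℂ).flip B.subtypeL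
  obtain ⟨x, hx⟩ := hX (Φ ∘L R)
  have hx' : ∀ g : StrongDual ℂ X, g x = Φ (g ∘L B.subtypeL) := by
    intro g
    exact congrArg (fun Ψ : StrongDual ℂ (StrongDual ℂ X) => Ψ g) hx
  have hxB : x ∈ B := by
    by_contra hxB
    have hne : B.mkQ x ≠ 0 := by
      simpa using hxB
    obtain ⟨g0, hg0⟩ := SeparatingDual.exists_ne_zero (R := ℂ) hne
    have h1 := hx' (g0 ∘L B.mkQL)
    have h2 : (g0 ∘L B.mkQL) ∘L B.subtypeL = 0 := by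
      ext b
      have h3 : (Submodule.Quotient.mk (b : X) : X ⧸ B) = 0 :=
        (Submodule.Quotient.mk_eq_zero B).mpr b.2
      simp [h3]
    rw [h2, map_zero] at h1
    exact hg0 h1
  refine ⟨⟨x, hxB⟩, ?_⟩
  ext h
  obtain ⟨g, hg, -⟩ := exists_extension_norm_eq B h
  have h3 := hx' g
  have h4 : g ∘L B.subtypeL = h := by
    ext b
    exact hg b
  rw [h4] at h3
  rw [← h3]
  change h ⟨x, hxB⟩ = g x
  rw [← hg]

/-- vectors with bounded orbits -/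
def bddOrb (A : X →L[ℂ] X) : Submodule ℂ X where
  carrier := {x | ∃ C : ℝ, ∀ n : ℕ, ‖(A ^ n) x‖ ≤ C}
  add_mem' := by
    rintro a b ⟨C, hC⟩ ⟨D, hD⟩
    exact ⟨C + D, fun n => by rw [map_add]; exact (norm_add_le _ _).trans (add_le_add (hC n) (hD n))⟩
  zero_mem' := ⟨0, fun n => by simp⟩
  smul_mem' := by
    rintro c a ⟨C, hC⟩
    exact ⟨‖c‖ * C, fun n => by rw [map_smul, norm_smul]; gcongr; exact hC n⟩

lemma mem_bddOrb {A : X →L[ℂ] X} {x : X} :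
    x ∈ bddOrb A ↔ ∃ C : ℝ, ∀ n : ℕ, ‖(A ^ n) x‖ ≤ C := Iff.rfl

/-- scaled Baire lemma -/
lemma baire_scaled [CompleteSpace X] (T : X →L[ℂ] X) (hH : NoDense T) (r : ℝ) (hr : 1 ≤ r)
    (B : Submodule ℂ X) :
    ∃ (w : ℂ) (c : ℝ) (x0 : X) (f0 : StrongDual ℂ X), x0 ∈ B ∧ 0 < c ∧
      ∀ (n : ℕ), ∀ y ∈ B, c * ‖((((r⁻¹ : ℝ) : ℂ) • T) ^ n) y‖ ≤
        (‖f0 (((((r⁻¹ : ℝ) : ℂ) • T) ^ n) x0)‖ + ‖w‖ * (r⁻¹) ^ n) * ‖y‖ := by
  obtain ⟨w, c, x0, f0, hx0, hc, h⟩ := baire_lemma T hH B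
  refine ⟨w, c, x0, f0, hx0, hc, ?_⟩
  intro n y hy
  have h0 := h n y hy
  have hr0 : 0 < r := by linarith
  have e1 : ∀ x : X, ((((r⁻¹ : ℝ) : ℂ) • T) ^ n) x = (((r⁻¹) ^ n : ℝ) : ℂ) • ((T ^ n) x) := by
    intro x
    rw [smul_pow]
    push_cast
    rfl
  rw [e1, e1, map_smul, norm_smul, norm_smul, Complex.norm_real,
    Real.norm_of_nonneg (by positivity)]
  have hp : 0 ≤ (r⁻¹) ^ n := by positivity
  calc c * ((r⁻¹) ^ n * ‖(T ^ n) y‖) = (r⁻¹) ^ n * (c * ‖(T ^ n) y‖) := by ring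
    _ ≤ (r⁻¹) ^ n * (‖f0 ((T ^ n) x0) - w‖ * ‖y‖) := by gcongr
    _ ≤ (r⁻¹) ^ n * ((‖f0 ((T ^ n) x0)‖ + ‖w‖) * ‖y‖) := by gcongr; exact norm_sub_le _ _
    _ = ((r⁻¹) ^ n * ‖f0 ((T ^ n) x0)‖ + ‖w‖ * (r⁻¹) ^ n) * ‖y‖ := by ring

lemma bddOrb_bound [CompleteSpace X] (T : X →L[ℂ] X) (hH : NoDense T) (r : ℝ) (hr : 1 ≤ r) :
    ∃ M : ℝ, 0 ≤ M ∧ ∀ (n : ℕ), ∀ y ∈ bddOrb (((r⁻¹ : ℝ) : ℂ) • T),
      ‖((((r⁻¹ : ℝ) : ℂ) • T) ^ n) y‖ ≤ M * ‖y‖ := by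
  obtain ⟨w, c, x0, f0, hx0, hc, h⟩ := baire_scaled T hH r hr (bddOrb (((r⁻¹ : ℝ) : ℂ) • T))
  obtain ⟨C, hC⟩ := hx0
  have hC0 : 0 ≤ C := (norm_nonneg _).trans (hC 0)
  have hr0 : 0 < r := by linarith
  refine ⟨(‖f0‖ * C + ‖w‖) / c, by positivity, ?_⟩
  intro n y hy
  have h1 := h n y hy
  have h2 : ‖f0 (((((r⁻¹ : ℝ) : ℂ) • T) ^ n) x0)‖ + ‖w‖ * (r⁻¹) ^ n ≤ ‖f0‖ * C + ‖w‖ := by
    apply add_le_add
    · exact (f0.le_opNorm _).trans (by gcongr; exact hC n)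
    · have : (r⁻¹) ^ n ≤ 1 := pow_le_one₀ (by positivity) (inv_le_one_of_one_le₀ hr)
      calc ‖w‖ * (r⁻¹) ^ n ≤ ‖w‖ * 1 := by gcongr
        _ = ‖w‖ := mul_one _
  have h3 : c * ‖((((r⁻¹ : ℝ) : ℂ) • T) ^ n) y‖ ≤ (‖f0‖ * C + ‖w‖) * ‖y‖ :=
    h1.trans (by gcongr)
  rw [div_mul_eq_mul_div, le_div_iff₀ hc]
  linarith

lemma bddOrb_closed (A : X →L[ℂ] X) (M : ℝ)
    (hM : ∀ (n : ℕ), ∀ y ∈ bddOrb A, ‖(A ^ n) y‖ ≤ M * ‖y‖) : IsClosed (bddOrb A : Set X) := by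
  rw [← closure_subset_iff_isClosed]
  intro y hy
  refine ⟨M * ‖y‖, fun n => ?_⟩
  have hcl : IsClosed {x : X | ‖(A ^ n) x‖ ≤ M * ‖x‖} :=
    isClosed_le (by fun_prop) (by fun_prop)
  exact (closure_minimal (fun x hx => hM n x hx) hcl) hy

lemma one_le_norm_pow [Nontrivial X] (T : X →L[ℂ] X)
    (hnpb : ¬ ∃ C : ℝ, ∀ n : ℕ, ‖T ^ n‖ ≤ C) (m : ℕ) : 1 ≤ ‖T ^ m‖ := by
  by_contra hcon
  push Not at hcon
  apply hnpb
  have hm : 0 < m := by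
    rcases Nat.eq_zero_or_pos m with h | h
    · subst h
      simp at hcon
    · exact h
  refine ⟨∑ s ∈ Finset.range m, ‖T ^ s‖, fun n => ?_⟩
  have h1 : T ^ n = (T ^ m) ^ (n / m) * T ^ (n % m) := by
    rw [← pow_mul, ← pow_add, Nat.div_add_mod]
  rw [h1]
  calc ‖(T ^ m) ^ (n / m) * T ^ (n % m)‖ ≤ ‖(T ^ m) ^ (n / m)‖ * ‖T ^ (n % m)‖ := norm_mul_le _ _
    _ ≤ ‖T ^ m‖ ^ (n / m) * ‖T ^ (n % m)‖ := by gcongr; exact norm_pow_le _ _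
    _ ≤ 1 * ‖T ^ (n % m)‖ := by
        gcongr
        exact pow_le_one₀ (norm_nonneg _) hcon.le
    _ = ‖T ^ (n % m)‖ := one_mul _
    _ ≤ _ := Finset.single_le_sum (f := fun s => ‖T ^ s‖) (fun s _ => norm_nonneg _)
        (Finset.mem_range.mpr (Nat.mod_lt _ hm))

lemma growth [Nontrivial X] (T : X →L[ℂ] X)
    (hnpb : ¬ ∃ C : ℝ, ∀ n : ℕ, ‖T ^ n‖ ≤ C) :
    ∃ L : ℝ, 0 ≤ L ∧ (∀ n : ℕ, Real.exp (n * L) ≤ ‖T ^ n‖) ∧
      (∀ ε : ℝ, 0 < ε → ∀ᶠ n : ℕ in atTop, ‖T ^ n‖ ≤ Real.exp (n * (L + ε))) := by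
  have h1 := one_le_norm_pow T hnpb
  have hpos : ∀ n : ℕ, 0 < ‖T ^ n‖ := fun n => by linarith [h1 n]
  have hsub : Subadditive (fun n : ℕ => Real.log ‖T ^ n‖) := by
    intro m n
    change Real.log ‖T ^ (m + n)‖ ≤ Real.log ‖T ^ m‖ + Real.log ‖T ^ n‖
    rw [← Real.log_mul (hpos m).ne' (hpos n).ne']
    apply Real.log_le_log (hpos _)
    rw [pow_add]
    exact norm_mul_le _ _
  have hnn : ∀ n : ℕ, 0 ≤ Real.log ‖T ^ n‖ := fun n => Real.log_nonneg (h1 n)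
  have hbdd : BddBelow (Set.range fun n : ℕ => Real.log ‖T ^ n‖ / n) := by
    refine ⟨0, ?_⟩
    rintro _ ⟨n, rfl⟩
    exact div_nonneg (hnn n) (by positivity)
  have hlim := hsub.tendsto_lim hbdd
  refine ⟨hsub.lim, ?_, ?_, ?_⟩
  · exact ge_of_tendsto' hlim (fun n => div_nonneg (hnn n) (by positivity))
  · intro n
    rw [← Real.le_log_iff_exp_le (hpos n)]
    rcases Nat.eq_zero_or_pos n with h | h
    · subst h
      simp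
    · have h2 := hsub.lim_le_div hbdd h.ne'
      rw [le_div_iff₀ (by exact_mod_cast h)] at h2
      linarith
  · intro ε hε
    have h2 := hlim.eventually (gt_mem_nhds (show hsub.lim < hsub.lim + ε by linarith))
    filter_upwards [h2, eventually_gt_atTop 0] with n hn hn0
    rw [← Real.log_le_iff_le_exp (hpos n)]
    rw [div_lt_iff₀ (by exact_mod_cast hn0)] at hn
    linarith

/-- norm bound by duality -/
lemma norm_le_of_dual (x : X) (C : ℝ) (h : ∀ g : StrongDual ℂ X, ‖g‖ ≤ 1 → ‖g x‖ ≤ C) :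
    ‖x‖ ≤ C := by
  obtain ⟨g, hg1, hg2⟩ := exists_dual_vector'' ℂ x
  have := h g hg1
  have hg2' : g x = Complex.ofReal ‖x‖ := hg2
  rw [hg2', Complex.norm_real, norm_norm] at this
  exact this

/-- selection of almost maximal times -/
lemma exists_max_time (b : ℕ → ℝ) (hb0 : 0 < b 0) (ε : ℝ)
    (h : Tendsto (fun n : ℕ => b n * Real.exp (-(ε * n))) atTop (𝓝 0)) :
    ∃ N : ℕ, ∀ m : ℕ, b m * Real.exp (-(ε * m)) ≤ b N * Real.exp (-(ε * N)) := by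
  have h1 := h.eventually (gt_mem_nhds hb0)
  obtain ⟨K, hK⟩ := eventually_atTop.mp h1
  obtain ⟨N, hN, hmax⟩ := Finset.exists_max_image (Finset.range (K + 1))
    (fun m : ℕ => b m * Real.exp (-(ε * m))) ⟨0, by simp⟩
  refine ⟨N, fun m => ?_⟩
  by_cases hm : m < K + 1
  · exact hmax m (Finset.mem_range.mpr hm)
  · have h2 := hK m (by omega)
    have h3 := hmax 0 (by simp)
    simp only [Nat.cast_zero, mul_zero, neg_zero, Real.exp_zero, mul_one] at h3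
    linarith

end

end WNH
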