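import Mathlib

/-! Ultrafilter means of bounded sequences and the attached Hilbert space. -/

open Filter Topology ComplexConjugate

namespace WNH

noncomputable section

/-- A fixed free ultrafilter on `ℕ`. -/
def U : Ultrafilter ℕ := Filter.hyperfilter ℕ

lemma U_le_atTop : (U : Filter ℕ) ≤ atTop := by
  rw [← Nat.cofinite_eq_atTop]
  exact Filter.hyperfilter_le_cofinite

/-- Cesàro averages. -/
def ces (a : ℕ → ℂ) (N : ℕ) : ℂ := (∑ n ∈ Finset.range (N + 1), a n) / ((N : ℂ) + 1)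

/-- boundedness of a sequence -/
def Bdd (a : ℕ → ℂ) : Prop := ∃ C : ℝ, ∀ n, ‖a n‖ ≤ C

/-- A bounded family in a proper space converges along every ultrafilter. -/
lemma exists_tendsto_of_bdd {ι : Type*} (W : Ultrafilter ι) (a : ι → ℂ) (C : ℝ)
    (h : ∀ᶠ i in (W : Filter ι), ‖a i‖ ≤ C) : ∃ x : ℂ, ‖x‖ ≤ C ∧ Tendsto a W (𝓝 x) := by
  have hc : IsCompact (Metric.closedBall (0 : ℂ) C) := isCompact_closedBall _ _
  have hle : ((W.map a : Ultrafilter ℂ) : Filter ℂ) ≤ 𝓟 (Metric.closedBall (0 : ℂ) C) := by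
    rw [le_principal_iff]
    change ∀ᶠ i in (W : Filter ι), a i ∈ Metric.closedBall (0 : ℂ) C
    filter_upwards [h] with i hi
    simpa using hi
  obtain ⟨x, hx, hx'⟩ := hc.ultrafilter_le_nhds (W.map a) hle
  exact ⟨x, by simpa using hx, hx'⟩

lemma norm_ces_le {a : ℕ → ℂ} {C : ℝ} (h : ∀ n, ‖a n‖ ≤ C) (N : ℕ) : ‖ces a N‖ ≤ C := by
  unfold ces
  rw [norm_div]
  have h1 : ‖((N : ℂ) + 1)‖ = (N : ℝ) + 1 := by
    have : ((N : ℂ) + 1) = ((N + 1 : ℕ) : ℂ) := by push_cast; ring
    rw [this, Complex.norm_natCast]; push_cast; ring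
  rw [h1, div_le_iff₀ (by positivity)]
  calc ‖∑ n ∈ Finset.range (N + 1), a n‖ ≤ ∑ n ∈ Finset.range (N + 1), ‖a n‖ := norm_sum_le _ _
    _ ≤ ∑ n ∈ Finset.range (N + 1), C := Finset.sum_le_sum (fun n _ => h n)
    _ = C * ((N : ℝ) + 1) := by simp [mul_comm]

/-- The mean of a bounded sequence. -/
def mean (a : ℕ → ℂ) : ℂ := limUnder (U : Filter ℕ) (ces a)

lemma tendsto_mean {a : ℕ → ℂ} (h : Bdd a) : Tendsto (ces a) U (𝓝 (mean a)) := by
  obtain ⟨C, hC⟩ := h
  obtain ⟨x, -, hx⟩ := exists_tendsto_of_bdd U (ces a) C (Eventually.of_forall (norm_ces_le hC))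
  exact tendsto_nhds_limUnder ⟨x, hx⟩

lemma mean_eq {a : ℕ → ℂ} {x : ℂ} (h : Tendsto (ces a) U (𝓝 x)) : mean a = x :=
  h.limUnder_eq

lemma norm_mean_le {a : ℕ → ℂ} {C : ℝ} (h : ∀ n, ‖a n‖ ≤ C) : ‖mean a‖ ≤ C := by
  have := (tendsto_mean ⟨C, h⟩).norm
  exact le_of_tendsto this (Eventually.of_forall (norm_ces_le h))

lemma Bdd.add {a b : ℕ → ℂ} (ha : Bdd a) (hb : Bdd b) : Bdd (fun n => a n + b n) := by
  obtain ⟨C, hC⟩ := ha
  obtain ⟨D, hD⟩ := hb
  exact ⟨C + D, fun n => (norm_add_le _ _).trans (add_le_add (hC n) (hD n))⟩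

lemma Bdd.smul {a : ℕ → ℂ} (c : ℂ) (ha : Bdd a) : Bdd (fun n => c * a n) := by
  obtain ⟨C, hC⟩ := ha
  exact ⟨‖c‖ * C, fun n => by rw [norm_mul]; gcongr; exact hC n⟩

lemma Bdd.mul {a b : ℕ → ℂ} (ha : Bdd a) (hb : Bdd b) : Bdd (fun n => a n * b n) := by
  obtain ⟨C, hC⟩ := ha
  obtain ⟨D, hD⟩ := hb
  have hC0 : 0 ≤ C := (norm_nonneg _).trans (hC 0)
  exact ⟨C * D, fun n => by
    rw [norm_mul]
    exact mul_le_mul (hC n) (hD n) (norm_nonneg _) hC0⟩

lemma Bdd.conj {a : ℕ → ℂ} (ha : Bdd a) : Bdd (fun n => conj (a n)) := by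
  obtain ⟨C, hC⟩ := ha
  exact ⟨C, fun n => by simpa using hC n⟩

lemma Bdd.shift {a : ℕ → ℂ} (ha : Bdd a) : Bdd (fun n => a (n + 1)) := by
  obtain ⟨C, hC⟩ := ha
  exact ⟨C, fun n => hC _⟩

lemma mean_add {a b : ℕ → ℂ} (ha : Bdd a) (hb : Bdd b) :
    mean (fun n => a n + b n) = mean a + mean b := by
  apply mean_eq
  have := (tendsto_mean ha).add (tendsto_mean hb)
  refine this.congr (fun N => ?_)
  unfold ces
  rw [Finset.sum_add_distrib, add_div]

lemma mean_smul {a : ℕ → ℂ} (c : ℂ) (ha : Bdd a) :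
    mean (fun n => c * a n) = c * mean a := by
  apply mean_eq
  have := (tendsto_mean ha).const_mul c
  refine this.congr (fun N => ?_)
  unfold ces
  rw [← Finset.mul_sum, mul_div_assoc]

lemma mean_conj {a : ℕ → ℂ} (ha : Bdd a) :
    mean (fun n => conj (a n)) = conj (mean a) := by
  apply mean_eq
  have := (Complex.continuous_conj.tendsto (mean a)).comp (tendsto_mean ha)
  refine this.congr (fun N => ?_)
  simp [ces, map_div₀]

lemma mean_shift {a : ℕ → ℂ} (ha : Bdd a) :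
    mean (fun n => a (n + 1)) = mean a := by
  apply mean_eq
  have h1 := tendsto_mean ha
  obtain ⟨C, hC⟩ := ha
  have h2 : Tendsto (fun N : ℕ => ces (fun n => a (n + 1)) N - ces a N) atTop (𝓝 0) := by
    apply squeeze_zero_norm (a := fun N : ℕ => (2 * C) * (1 / ((N : ℝ) + 1)))
    · intro N
      unfold ces
      rw [← sub_div, ← Finset.sum_sub_distrib, Finset.sum_range_sub, norm_div]
      have h1 : ‖((N : ℂ) + 1)‖ = (N : ℝ) + 1 := by
        have : ((N : ℂ) + 1) = ((N + 1 : ℕ) : ℂ) := by push_cast; ring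
        rw [this, Complex.norm_natCast]; push_cast; ring
      rw [h1, div_eq_mul_one_div]
      gcongr
      calc ‖a (N + 1) - a 0‖ ≤ ‖a (N + 1)‖ + ‖a 0‖ := norm_sub_le _ _
        _ ≤ 2 * C := by linarith [hC (N + 1), hC 0]
    · have := (tendsto_one_div_add_atTop_nhds_zero_nat (𝕜 := ℝ)).const_mul (2 * C)
      simpa using this
  have h3 := (h2.mono_left U_le_atTop).add h1
  simpa using h3

lemma mean_re_nonneg {a : ℕ → ℂ} (ha : Bdd a) (h : ∀ n, 0 ≤ (a n).re) : 0 ≤ (mean a).re := by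
  have h1 := (Complex.continuous_re.tendsto (mean a)).comp (tendsto_mean ha)
  refine ge_of_tendsto h1 (Eventually.of_forall (fun N => ?_))
  simp only [Function.comp]
  unfold ces
  have : ((N : ℂ) + 1) = ((N + 1 : ℝ) : ℂ) := by push_cast; ring
  rw [this, Complex.div_ofReal_re, Complex.re_sum]
  apply div_nonneg
  · exact Finset.sum_nonneg (fun n _ => h n)
  · positivity

/-- means only depend on the tail -/
lemma mean_congr_tail {a b : ℕ → ℂ} (ha : Bdd a) (h : ∀ n, a (n + 1) = b (n + 1)) (hb : Bdd b) :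
    mean a = mean b := by
  rw [← mean_shift ha, ← mean_shift hb]
  congr 1
  funext n
  exact h n

lemma mean_const (c : ℂ) : mean (fun _ => c) = c := by
  apply mean_eq
  have : ces (fun _ => c) = fun _ => c := by
    funext N
    unfold ces
    have h0 : ((N : ℂ) + 1) ≠ 0 := by
      have : ((N : ℂ) + 1) = ((N + 1 : ℕ) : ℂ) := by push_cast; ring
      rw [this]; exact_mod_cast Nat.succ_ne_zero N
    simp
    field_simp
  rw [this]
  exact tendsto_const_nhds

/-- Bounded complex sequences. -/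
def bddSub : Submodule ℂ (ℕ → ℂ) where
  carrier := {a | Bdd a}
  add_mem' := fun ha hb => Bdd.add ha hb
  zero_mem' := ⟨0, fun n => by simp⟩
  smul_mem' := fun c a ha => Bdd.smul c ha

/-- type synonym carrying the mean inner product -/
def Seq : Type := bddSub

instance : AddCommGroup Seq := inferInstanceAs (AddCommGroup bddSub)
instance : Module ℂ Seq := inferInstanceAs (Module ℂ bddSub)

/-- make a `Seq` -/
def Seq.mk (a : ℕ → ℂ) (h : Bdd a) : Seq := (⟨a, h⟩ : bddSub)

/-- underlying function -/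
def Seq.fn (a : Seq) : ℕ → ℂ := (show bddSub from a).1

lemma Seq.bdd (a : Seq) : Bdd a.fn := (show bddSub from a).2

@[simp] lemma Seq.fn_mk (a : ℕ → ℂ) (h : Bdd a) : (Seq.mk a h).fn = a := rfl

@[simp] lemma Seq.mk_fn (a : Seq) : Seq.mk a.fn a.bdd = a := rfl

@[ext] lemma Seq.ext {a b : Seq} (h : ∀ n, a.fn n = b.fn n) : a = b := by
  apply Subtype.ext
  funext n
  exact h n

@[simp] lemma Seq.fn_add (a b : Seq) : (a + b).fn = fun n => a.fn n + b.fn n := rfl
@[simp] lemma Seq.fn_smul (c : ℂ) (a : Seq) : (c • a).fn = fun n => c * a.fn n := rfl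

/-- the mean inner product -/
abbrev seqCore : PreInnerProductSpace.Core ℂ Seq where
  inner a b := mean (fun n => conj (a.fn n) * b.fn n)
  conj_inner_symm a b := by
    rw [← mean_conj (b.bdd.conj.mul a.bdd)]
    congr 1
    funext n
    simp [mul_comm]
  re_inner_nonneg a := by
    apply mean_re_nonneg (a.bdd.conj.mul a.bdd)
    intro n
    have : conj (a.fn n) * a.fn n = ((‖a.fn n‖ ^ 2 : ℝ) : ℂ) := by
      rw [mul_comm, Complex.mul_conj, Complex.normSq_eq_norm_sq]
    rw [this, Complex.ofReal_re]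
    positivity
  add_left a b c := by
    rw [← mean_add (a.bdd.conj.mul c.bdd) (b.bdd.conj.mul c.bdd)]
    congr 1
    funext n
    simp [add_mul]
  smul_left a b r := by
    rw [← mean_smul _ (a.bdd.conj.mul b.bdd)]
    congr 1
    funext n
    simp [mul_assoc]

noncomputable instance : SeminormedAddCommGroup Seq :=
  InnerProductSpace.Core.toSeminormedAddCommGroup (c := seqCore)
noncomputable instance : InnerProductSpace ℂ Seq :=
  InnerProductSpace.ofCore seqCore

lemma seq_inner_def (a b : Seq) : inner ℂ a b = mean (fun n => conj (a.fn n) * b.fn n) := rfl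

/-- The Hilbert space of bounded sequences modulo null sequences, completed. -/
abbrev H : Type := UniformSpace.Completion Seq

example : CompleteSpace H := inferInstance
example : InnerProductSpace ℂ H := inferInstance

lemma norm_sq_seq (a : Seq) : ((‖a‖ ^ 2 : ℝ) : ℂ) = mean (fun n => ((‖a.fn n‖ ^ 2 : ℝ) : ℂ)) := by
  have h := inner_self_eq_norm_sq_to_K (𝕜 := ℂ) a
  rw [seq_inner_def] at h
  push_cast
  rw [← RCLike.ofReal_eq_complex_ofReal, ← h]
  congr 1
  funext n
  rw [mul_comm, Complex.mul_conj, Complex.normSq_eq_norm_sq]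
  push_cast
  rfl

lemma norm_seq_le {a : Seq} {C : ℝ} (hC : 0 ≤ C) (h : ∀ n, ‖a.fn n‖ ≤ C) : ‖a‖ ≤ C := by
  have h1 := norm_sq_seq a
  have h2 : ‖mean (fun n => ((‖a.fn n‖ ^ 2 : ℝ) : ℂ))‖ ≤ C ^ 2 := by
    apply norm_mean_le
    intro n
    rw [Complex.norm_real, norm_pow, norm_norm]
    exact pow_le_pow_left₀ (norm_nonneg _) (h n) 2
  rw [← h1, Complex.norm_real, norm_pow, norm_norm] at h2
  exact (pow_le_pow_iff_left₀ (norm_nonneg _) hC two_ne_zero).mp h2

/-- the left shift -/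
def shiftL : Seq →ₗ[ℂ] Seq where
  toFun a := Seq.mk (fun n => a.fn (n + 1)) a.bdd.shift
  map_add' a b := by ext n; simp
  map_smul' c a := by ext n; simp

@[simp] lemma shiftL_fn (a : Seq) (n : ℕ) : (shiftL a).fn n = a.fn (n + 1) := rfl

lemma inner_shiftL (a b : Seq) : inner ℂ (shiftL a) (shiftL b) = inner ℂ a b := by
  rw [seq_inner_def, seq_inner_def]
  exact mean_shift (a := fun n => conj (a.fn n) * b.fn n) (a.bdd.conj.mul b.bdd)

lemma norm_shiftL (a : Seq) : ‖shiftL a‖ = ‖a‖ := by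
  rw [norm_eq_sqrt_re_inner (𝕜 := ℂ), norm_eq_sqrt_re_inner (𝕜 := ℂ) a, inner_shiftL]

/-- the left shift, continuous version on `Seq` -/
def shiftC : Seq →L[ℂ] Seq := shiftL.mkContinuous 1 (fun a => by rw [norm_shiftL, one_mul])

/-- the shift on the Hilbert space -/
def S : H →L[ℂ] H := shiftC.completion

lemma S_coe (a : Seq) : S (a : H) = ((shiftL a : Seq) : H) := by
  unfold S
  simp [shiftC]

lemma norm_S (x : H) : ‖S x‖ = ‖x‖ := by
  induction x using UniformSpace.Completion.induction_on with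
  | hp => exact isClosed_eq (by fun_prop) (by fun_prop)
  | ih a => rw [S_coe, UniformSpace.Completion.norm_coe, UniformSpace.Completion.norm_coe, norm_shiftL]

end

end WNH
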